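import Pool.Agent.G02.StmtsS

/-! # Squad G02: row GTB (the bad places of a curve of type 1) -/

set_option autoImplicit false

namespace Pool.Agent.G02.H84

open Polynomial Pool.Agent.G02

theorem lin_w {x y : ℚ[X]} (h : Lin x y) : x - 4 * y ≠ 0 := by
  intro h0
  have h1 : x = C 4 * y := by
    have : (C 4 : ℚ[X]) = 4 := rfl
    rw [this]
    exact sub_eq_zero.mp h0
  have h2 : IsUnit y := h.cop.isUnit_of_dvd' ⟨C 4, by rw [h1, mul_comm]⟩ dvd_rfl
  have h3 := natDegree_eq_zero_of_isUnit h2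
  apply h.nc
  refine ⟨?_, h3⟩
  rw [h1, natDegree_C_mul (by norm_num), h3]

theorem rat_root {f : ℚ[X]} (h0 : f ≠ 0) (h1 : f.natDegree ≤ 1) {t : ℂ}
    (ht : (f.map (algebraMap ℚ ℂ)).eval t = 0) : ∃ c : ℚ, f.eval c = 0 ∧ t = (c : ℂ) := by
  have hf := eq_X_add_C_of_natDegree_le_one h1
  have hc : f.coeff 1 ≠ 0 := by
    intro hc
    rw [hc, C_0, zero_mul, zero_add] at hf
    rw [hf] at ht
    simp only [map_C, eval_C] at ht
    apply h0
    rw [hf, (map_eq_zero _).mp ht, C_0]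
  refine ⟨-f.coeff 0 / f.coeff 1, ?_, ?_⟩
  · rw [hf]
    simp only [eval_add, eval_mul, eval_C, eval_X, coeff_add, coeff_C_mul, coeff_X_one, mul_one,
      coeff_C_zero, mul_coeff_zero, coeff_X_zero, mul_zero, zero_add, coeff_C_succ, add_zero]
    field_simp
    ring
  · rw [hf] at ht
    simp only [Polynomial.map_add, Polynomial.map_mul, map_C, map_X, eval_add, eval_mul, eval_C,
      eval_X, eq_ratCast] at ht
    have hc' : ((f.coeff 1 : ℚ) : ℂ) ≠ 0 := Rat.cast_ne_zero.mpr hc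
    push_cast
    rw [eq_div_iff hc']
    linear_combination ht

theorem fld1 {K : Type} [Field K] (k n d x y w : K) (hd : d ≠ 0) (hy : y ≠ 0) (i j : ℕ) :
    k * (n / d) ^ 2 * (x / y) ^ i * (w / y) ^ j * (x / y) * (d ^ 2 * y ^ (i + j + 1)) =
      k * n ^ 2 * x ^ (i + 1) * w ^ j := by
  simp only [div_pow, pow_add, pow_one]
  field_simp

theorem fld2 {K : Type} [Field K] (k n d x y w : K) (hd : d ≠ 0) (hy : y ≠ 0) (i j : ℕ) :
    (k * (n / d) ^ 2 * (x / y) ^ i * (w / y) ^ j) ^ 2 * (x / y) *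
        (d ^ 4 * y ^ (2 * i + 2 * j + 1)) =
      k ^ 2 * n ^ 4 * x ^ (2 * i + 1) * w ^ (2 * j) := by
  have h1 : y ^ (2 * i + 2 * j + 1) = (y ^ i) ^ 2 * (y ^ j) ^ 2 * y := by ring
  have h2 : x ^ (2 * i + 1) = (x ^ i) ^ 2 * x := by ring
  have h3 : w ^ (2 * j) = (w ^ j) ^ 2 := by ring
  rw [h1, h2, h3]
  simp only [div_pow]
  field_simp

theorem gtb : GtbStmt := by
  intro a b x y k m i j hT B hB t hG
  by_contra hne
  push Not at hne
  apply hG
  have hL := hT.lin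
  set φ : ℚ[X] →+* ℂ[X] := mapRingHom (algebraMap ℚ ℂ) with hφ
  have hφa : ∀ f : ℚ[X], f.map (algebraMap ℚ ℂ) = φ f := fun f => rfl
  have hinj : Function.Injective φ := map_injective _ (algebraMap ℚ ℂ).injective
  set w : ℚ[X] := x - 4 * y with hw
  have hw0 : w ≠ 0 := lin_w hL
  have hwd : w.natDegree ≤ 1 := by
    refine (natDegree_sub_le _ _).trans (max_le hL.dx ?_)
    have h4 : (4 : ℚ[X]) = C 4 := rfl
    rw [h4]
    exact (natDegree_C_mul_le _ _).trans hL.dy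
  -- no roots at `t`
  have hroot : ∀ f : ℚ[X], f ≠ 0 → f.natDegree ≤ 1 → f ∣ x * y * w →
      rootMultiplicity t (φ f) = 0 := by
    intro f hf0 hf1 hf2
    apply rootMultiplicity_eq_zero
    intro hr
    obtain ⟨c, hc, htc⟩ := rat_root hf0 hf1 hr
    apply hne c _ htc
    rw [hB]
    obtain ⟨g, hg⟩ := hf2
    rw [hg, eval_mul, hc, zero_mul]
  have mx : rootMultiplicity t (φ x) = 0 :=
    hroot x hL.x0 hL.dx ⟨y * w, by ring⟩
  have my : rootMultiplicity t (φ y) = 0 :=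
    hroot y hL.y0 hL.dy ⟨x * w, by ring⟩
  have mw : rootMultiplicity t (φ w) = 0 :=
    hroot w hw0 hwd ⟨x * y, by ring⟩
  -- the identities without denominators
  set A := algebraMap ℚ[X] (RatFunc ℚ) with hA
  have hAi : Function.Injective A := IsFractionRing.injective ℚ[X] (RatFunc ℚ)
  obtain ⟨n, d, hn0, hd0, hm⟩ : ∃ n d : ℚ[X], n ≠ 0 ∧ d ≠ 0 ∧ m = A n / A d :=
    ⟨m.num, m.denom, RatFunc.num_ne_zero hT.m0, m.denom_ne_zero, (RatFunc.num_div_denom m).symm⟩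
  have hAd : A d ≠ 0 := (map_ne_zero_iff A hAi).mpr hd0
  have hAy : A y ≠ 0 := (map_ne_zero_iff A hAi).mpr hL.y0
  have hl : lam x y = A x / A y := rfl
  have hl4 : lam x y - 4 = A w / A y := by
    rw [hl, hw, map_sub, map_mul, map_ofNat]
    field_simp
  have hk : RatFunc.C k = A (C k) := rfl
  have e1 : a * (d ^ 2 * y ^ (i + j + 1)) = C k * n ^ 2 * x ^ (i + 1) * w ^ j := by
    apply hAi
    have h := hT.ha
    rw [hl4, hl, hk, ← hA, hm] at h
    rw [map_mul, h]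
    simp only [map_mul, map_pow]
    exact fld1 _ _ _ _ _ _ hAd hAy i j
  have e2 : b * (d ^ 4 * y ^ (2 * i + 2 * j + 1)) =
      C k ^ 2 * n ^ 4 * x ^ (2 * i + 1) * w ^ (2 * j) := by
    apply hAi
    have h := hT.hb
    rw [hl4, hl, hk, ← hA, hm] at h
    rw [map_mul, h]
    simp only [map_mul, map_pow]
    exact fld2 _ _ _ _ _ _ hAd hAy i j
  have e3 : (a ^ 2 - 4 * b) * (d ^ 4 * y ^ (2 * i + 2 * j + 2)) =
      C k ^ 2 * n ^ 4 * x ^ (2 * i + 1) * w ^ (2 * j + 1) := by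
    have h1 : (a * (d ^ 2 * y ^ (i + j + 1))) ^ 2 =
        (C k * n ^ 2 * x ^ (i + 1) * w ^ j) ^ 2 := by rw [e1]
    have h2 : (a ^ 2 - 4 * b) * (d ^ 4 * y ^ (2 * i + 2 * j + 2)) =
        (a * (d ^ 2 * y ^ (i + j + 1))) ^ 2 - 4 * y * (b * (d ^ 4 * y ^ (2 * i + 2 * j + 1))) := by
      ring
    rw [h2, h1, e2, hw]
    ring
  -- multiplicities
  have hφ0 : ∀ {f : ℚ[X]}, f ≠ 0 → φ f ≠ 0 := fun h => (map_ne_zero_iff φ hinj).mpr h
  have hC0 : (C k : ℚ[X]) ≠ 0 := C_ne_zero.mpr hT.k0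
  have hmC : rootMultiplicity t (φ (C k)) = 0 := by
    rw [hφ, coe_mapRingHom, map_C, rootMultiplicity_C]
  have mul : ∀ f g : ℚ[X], f ≠ 0 → g ≠ 0 → rootMultiplicity t (φ (f * g)) =
      rootMultiplicity t (φ f) + rootMultiplicity t (φ g) := by
    intro f g hf hg
    rw [map_mul, rootMultiplicity_mul (mul_ne_zero (hφ0 hf) (hφ0 hg))]
  have pw : ∀ (f : ℚ[X]) (r : ℕ), f ≠ 0 → rootMultiplicity t (φ (f ^ r)) =
      r * rootMultiplicity t (φ f) := by
    intro f r hf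
    induction r with
    | zero =>
      rw [pow_zero, map_one, zero_mul, ← C_1, rootMultiplicity_C]
    | succ r ih =>
      rw [pow_succ, mul _ _ (pow_ne_zero r hf) hf, ih]
      ring
  have hx0 := hL.x0
  have hy0 := hL.y0
  have ha0 : a ≠ 0 := by
    rintro rfl
    rw [zero_mul] at e1
    exact absurd e1.symm (mul_ne_zero (mul_ne_zero (mul_ne_zero hC0 (pow_ne_zero _ hn0))
      (pow_ne_zero _ hx0)) (pow_ne_zero _ hw0))
  have hb0 : b ≠ 0 := by
    rintro rfl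
    rw [zero_mul] at e2
    exact absurd e2.symm (mul_ne_zero (mul_ne_zero (mul_ne_zero (pow_ne_zero _ hC0)
      (pow_ne_zero _ hn0)) (pow_ne_zero _ hx0)) (pow_ne_zero _ hw0))
  have hc0 : a ^ 2 - 4 * b ≠ 0 := by
    intro h0
    rw [h0, zero_mul] at e3
    exact absurd e3.symm (mul_ne_zero (mul_ne_zero (mul_ne_zero (pow_ne_zero _ hC0)
      (pow_ne_zero _ hn0)) (pow_ne_zero _ hx0)) (pow_ne_zero _ hw0))
  -- right sides
  have rs : ∀ r s u v : ℕ, rootMultiplicity t (φ (C k ^ r * n ^ s * x ^ u * w ^ v)) =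
      s * rootMultiplicity t (φ n) := by
    intro r s u v
    rw [mul _ _ (mul_ne_zero (mul_ne_zero (pow_ne_zero _ hC0) (pow_ne_zero _ hn0))
        (pow_ne_zero _ hx0)) (pow_ne_zero _ hw0),
      mul _ _ (mul_ne_zero (pow_ne_zero _ hC0) (pow_ne_zero _ hn0)) (pow_ne_zero _ hx0),
      mul _ _ (pow_ne_zero _ hC0) (pow_ne_zero _ hn0), pw _ _ hC0, pw _ _ hn0, pw _ _ hx0,
      pw _ _ hw0, hmC, mx, mw]
    ring
  have ls : ∀ (f : ℚ[X]) (r s : ℕ), f ≠ 0 → rootMultiplicity t (φ (f * (d ^ r * y ^ s))) =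
      rootMultiplicity t (φ f) + r * rootMultiplicity t (φ d) := by
    intro f r s hf
    rw [mul _ _ hf (mul_ne_zero (pow_ne_zero _ hd0) (pow_ne_zero _ hy0)),
      mul _ _ (pow_ne_zero _ hd0) (pow_ne_zero _ hy0), pw _ _ hd0, pw _ _ hy0, my]
    ring
  have m1 := ls a 2 (i + j + 1) ha0
  rw [e1, ← pow_one (C k), rs] at m1
  have m2 := ls b 4 (2 * i + 2 * j + 1) hb0
  rw [e2, rs] at m2
  have m3 := ls (a ^ 2 - 4 * b) 4 (2 * i + 2 * j + 2) hc0
  rw [e3, rs] at m3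
  have hle : rootMultiplicity t (φ d) ≤ rootMultiplicity t (φ n) := by omega
  refine ⟨rootMultiplicity t (φ n) - rootMultiplicity t (φ d), ?_, ?_, ?_⟩
  · have h1 : 2 * (rootMultiplicity t (φ n) - rootMultiplicity t (φ d)) =
        rootMultiplicity t (φ a) := by omega
    rw [h1]
    exact pow_rootMultiplicity_dvd (φ a) t
  · change rootMultiplicity t (φ b) = _
    omega
  · change rootMultiplicity t (φ (a ^ 2 - 4 * b)) = _
    omega

end Pool.Agent.G02.H84
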